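import Pool.Agent.Run7.h568.DG.Iface

/-!
# The pieces `S_Ksurj` and `S_Kasymp` of `Pool.Agent.Run7.h568.DG.Iface`

With `A = e^(-a/2)`, `B = e^(b/2)` the equations `ae l th = a`, `af l th = b` have the explicit
solution `cosh (l/2) = (1 + A² + B²) / (2 A B)`, `sinh (th/2) = B - A cosh (l/2)`.
-/

open Real Matrix Filter Topology

noncomputable section

namespace Run7.h568.DG

lemma h239_sinh_pos {l : ℝ} (hl : 0 < l) : 0 < sinh (l / 2) := by
  rw [Real.sinh_pos_iff]; linarith

theorem Ksurj : S_Ksurj := by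
  intro a b
  set A := exp (-a / 2) with hA
  set B := exp (b / 2) with hB
  have hA0 : 0 < A := exp_pos _
  have hB0 : 0 < B := exp_pos _
  set c := (1 + A ^ 2 + B ^ 2) / (2 * A * B) with hc
  have hAB : 0 < 2 * A * B := by positivity
  have hc1 : 1 < c := by
    rw [hc, lt_div_iff₀ hAB]
    nlinarith [sq_nonneg (A - B)]
  have hcc : 2 * A * B * c = 1 + A ^ 2 + B ^ 2 := by
    rw [hc]; field_simp
  set la := arsinh (√(c ^ 2 - 1)) with hla
  have hc2 : 0 < c ^ 2 - 1 := by nlinarith
  have hsq : √(c ^ 2 - 1) ^ 2 = c ^ 2 - 1 := Real.sq_sqrt hc2.le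
  have hs : sinh la = √(c ^ 2 - 1) := Real.sinh_arsinh _
  have hs0 : 0 < sinh la := by rw [hs]; exact Real.sqrt_pos.2 hc2
  have hla0 : 0 < la := by rwa [Real.sinh_pos_iff] at hs0
  have hch : cosh la = c := by
    have h1 : cosh la ^ 2 = c ^ 2 := by
      rw [Real.cosh_sq, hs, hsq]; ring
    have h2 : 0 < cosh la := Real.cosh_pos _
    nlinarith [sq_nonneg (cosh la - c), sq_nonneg (cosh la + c)]
  set ta := arsinh (B - A * c) with hta
  have hst : sinh ta = B - A * c := Real.sinh_arsinh _
  have hsl2 : sinh la ^ 2 = c ^ 2 - 1 := by rw [hs, hsq]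
  have hct : cosh ta = A * sinh la := by
    have h1 : cosh ta ^ 2 = (A * sinh la) ^ 2 := by
      rw [Real.cosh_sq, hst, mul_pow, hsl2]; nlinarith
    have h2 : 0 < cosh ta := Real.cosh_pos _
    have h3 : 0 < A * sinh la := mul_pos hA0 hs0
    have h4 := (sq_eq_sq₀ h2.le h3.le).1 h1
    exact h4
  have hv : cosh (ta + la) = B * sinh la := by
    rw [Real.cosh_add, hct, hst, hch]; ring
  refine ⟨2 * la, 2 * ta, by linarith, ?_, ?_⟩
  · unfold ae
    have e1 : 2 * la / 2 = la := by ring
    have e2 : 2 * ta / 2 = ta := by ring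
    rw [e1, e2, hct]
    have : sinh la / (A * sinh la) = exp (a / 2) := by
      rw [hA]
      have : sinh la / (exp (-a / 2) * sinh la) = (exp (-a / 2))⁻¹ := by
        field_simp
      rw [this, ← Real.exp_neg]; congr 1; ring
    rw [this, Real.log_exp]; ring
  · unfold af
    have e1 : 2 * la / 2 = la := by ring
    have e2 : (2 * ta + 2 * la) / 2 = ta + la := by ring
    rw [e1, e2, hv]
    have : B * sinh la / sinh la = B := by field_simp
    rw [this, hB, Real.log_exp]; ring

/-- The exponentials of half the shears. -/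
lemma h239_exp_ae {l : ℝ} (hl : 0 < l) (th : ℝ) :
    exp (ae l th / 2) = sinh (l / 2) / cosh (th / 2) := by
  unfold ae
  have h : 0 < sinh (l / 2) / cosh (th / 2) := div_pos (h239_sinh_pos hl) (Real.cosh_pos _)
  rw [mul_div_assoc, mul_comm, div_mul_cancel₀ _ (two_ne_zero), Real.exp_log h]

lemma h239_exp_af {l : ℝ} (hl : 0 < l) (th : ℝ) :
    exp (af l th / 2) = cosh ((th + l) / 2) / sinh (l / 2) := by
  unfold af
  have h : 0 < cosh ((th + l) / 2) / sinh (l / 2) := div_pos (Real.cosh_pos _) (h239_sinh_pos hl)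
  rw [mul_div_assoc, mul_comm, div_mul_cancel₀ _ (two_ne_zero), Real.exp_log h]

lemma h239_key {l : ℝ} (hl : 0 < l) (th : ℝ) :
    2 * cosh (l / 2) = exp ((ae l th - af l th) / 2) + exp (-(ae l th + af l th) / 2) +
      exp ((ae l th + af l th) / 2) := by
  have ha := h239_exp_ae hl th
  have hb := h239_exp_af hl th
  have hs := h239_sinh_pos hl
  have hC : 0 < cosh (th / 2) := Real.cosh_pos _
  have hV : 0 < cosh ((th + l) / 2) := Real.cosh_pos _
  have e1 : exp ((ae l th - af l th) / 2) =
      sinh (l / 2) / cosh (th / 2) * (cosh ((th + l) / 2) / sinh (l / 2))⁻¹ := by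
    rw [← ha, ← hb, ← Real.exp_neg, ← Real.exp_add]; congr 1; ring
  have e3 : exp ((ae l th + af l th) / 2) =
      sinh (l / 2) / cosh (th / 2) * (cosh ((th + l) / 2) / sinh (l / 2)) := by
    rw [← ha, ← hb, ← Real.exp_add]; congr 1; ring
  have e2 : exp (-(ae l th + af l th) / 2) =
      (sinh (l / 2) / cosh (th / 2) * (cosh ((th + l) / 2) / sinh (l / 2)))⁻¹ := by
    rw [← e3, ← Real.exp_neg]; congr 1; ring
  rw [e1, e2, e3]
  have hVe : cosh ((th + l) / 2) = cosh (th / 2) * cosh (l / 2) + sinh (th / 2) * sinh (l / 2) := by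
    rw [← Real.cosh_add]; congr 1; ring
  have h1 := Real.cosh_sq (th / 2)
  have h2 := Real.cosh_sq (l / 2)
  set C := cosh (th / 2)
  set V := cosh ((th + l) / 2)
  set s := sinh (l / 2)
  set S := sinh (th / 2)
  set ch := cosh (l / 2)
  have hid : C ^ 2 + V ^ 2 + s ^ 2 = 2 * C * V * ch := by
    rw [hVe]
    have : C ^ 2 + (C * ch + S * s) ^ 2 + s ^ 2 - 2 * C * (C * ch + S * s) * ch
        = C ^ 2 * (1 - ch ^ 2) + s ^ 2 * (1 + S ^ 2) := by ring
    have h3 : C ^ 2 * (1 - ch ^ 2) + s ^ 2 * (1 + S ^ 2) = 0 := by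
      rw [h2]
      have : 1 + S ^ 2 = C ^ 2 := by rw [h1]; ring
      rw [this]; ring
    linarith
  field_simp
  nlinarith [hid]

/-- `|y| / 2 - log 2 ≤ log (cosh (y / 2)) ≤ |y| / 2`. -/
lemma h239_logcosh (y : ℝ) :
    |y| / 2 - log 2 ≤ log (cosh (y / 2)) ∧ log (cosh (y / 2)) ≤ |y| / 2 := by
  have h0 : cosh (y / 2) = cosh (|y| / 2) := by
    rw [← Real.cosh_abs (y / 2), abs_div]; norm_num
  have hc : 0 < cosh (|y| / 2) := Real.cosh_pos _
  rw [h0]
  constructor
  · have h1 : |y| / 2 - log 2 = log (exp (|y| / 2) / 2) := by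
      rw [Real.log_div (Real.exp_pos _).ne' two_ne_zero, Real.log_exp]
    rw [h1]
    apply Real.log_le_log (by positivity)
    rw [Real.cosh_eq]
    have := Real.exp_pos (-(|y| / 2))
    linarith
  · rw [Real.log_le_iff_le_exp hc, Real.cosh_eq]
    have h1 : exp (-(|y| / 2)) ≤ exp (|y| / 2) := Real.exp_le_exp.2 (by linarith [abs_nonneg y])
    linarith

/-- `l / 2 - 2 ≤ log (sinh (l / 2)) ≤ l / 2` for `l ≥ 1`. -/
lemma h239_logsinh {l : ℝ} (hl : 1 ≤ l) :
    l / 2 - 2 ≤ log (sinh (l / 2)) ∧ log (sinh (l / 2)) ≤ l / 2 := by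
  have hs := h239_sinh_pos (by linarith : (0 : ℝ) < l)
  constructor
  · rw [Real.le_log_iff_exp_le hs, Real.sinh_eq]
    have h1 : exp (l / 2 - 2) = exp (l / 2) * exp (-2) := by rw [← Real.exp_add]; congr 1
    have h2 : exp (-(l / 2)) = exp (l / 2) * exp (-l) := by rw [← Real.exp_add]; congr 1; ring
    have h3 : exp (-l) ≤ exp (-1) := Real.exp_le_exp.2 (by linarith)
    have h4 : exp (-1) ≤ 1 / 2 := by
      have := Real.add_one_le_exp (1 : ℝ)
      rw [Real.exp_neg, inv_le_comm₀ (Real.exp_pos _) (by norm_num)]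
      linarith
    have h5 : exp (-2) ≤ 1 / 4 := by
      have : exp (-2 : ℝ) = exp (-1) * exp (-1) := by rw [← Real.exp_add]; congr 1; norm_num
      rw [this]
      have := Real.exp_pos (-1 : ℝ)
      nlinarith
    have h6 := Real.exp_pos (l / 2)
    rw [h1, h2]
    nlinarith
  · rw [Real.log_le_iff_le_exp hs, Real.sinh_eq]
    have h1 := Real.exp_pos (-(l / 2))
    have h2 := Real.exp_pos (l / 2)
    linarith

lemma h239_half_abs (t : ℝ) :
    max ((1 - |t| - (|t + 1| - 1)) / 2) (|1 - |t| + (|t + 1| - 1)| / 2) = 1 / 2 := by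
  rcases le_total 0 t with h | h
  · rw [abs_of_nonneg h, abs_of_nonneg (by linarith : 0 ≤ t + 1)]
    have : (1 - t + (t + 1 - 1)) = 1 := by ring
    rw [this, abs_one]
    apply max_eq_right; linarith
  · rcases le_total 0 (t + 1) with h' | h'
    · rw [abs_of_nonpos h, abs_of_nonneg h']
      have : (1 - -t - (t + 1 - 1)) / 2 = 1 / 2 := by ring
      rw [this]
      apply max_eq_left
      have : |1 - -t + (t + 1 - 1)| ≤ 1 := by
        rw [abs_le]; constructor <;> linarith
      linarith
    · rw [abs_of_nonpos h, abs_of_nonpos h']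
      have : (1 - -t + (-(t + 1) - 1)) = -1 := by ring
      rw [this, abs_neg, abs_one]
      apply max_eq_right; linarith

lemma h239_squeeze {F M r : ℕ → ℝ} {C c : ℝ} (hr : Tendsto r atTop atTop)
    (hM : Tendsto (fun n => M n / r n) atTop (𝓝 c))
    (h : ∀ᶠ n in atTop, |F n - M n| ≤ C) :
    Tendsto (fun n => F n / r n) atTop (𝓝 c) := by
  have h1 : Tendsto (fun n => (F n - M n) / r n) atTop (𝓝 0) := by
    have hC : Tendsto (fun n => C / r n) atTop (𝓝 0) := Tendsto.const_div_atTop hr C
    refine squeeze_zero_norm' ?_ hC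
    filter_upwards [h, hr.eventually_gt_atTop 0] with n hn hrn
    rw [Real.norm_eq_abs, abs_div, abs_of_pos hrn]
    gcongr
  have h2 := hM.add h1
  rw [add_zero] at h2
  refine h2.congr (fun n => ?_)
  rw [← add_div]; congr 1; ring

lemma h239_logsum (x y z : ℝ) :
    |log (exp x + exp y + exp z) - max x (max y z)| ≤ log 3 := by
  have hpos : 0 < exp x + exp y + exp z := by positivity
  set m := max x (max y z) with hm
  have hx : x ≤ m := le_max_left _ _
  have hy : y ≤ m := (le_max_left _ _).trans (le_max_right _ _)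
  have hz : z ≤ m := (le_max_right _ _).trans (le_max_right _ _)
  have hl3 : 0 ≤ log 3 := Real.log_nonneg (by norm_num)
  have hlow : m ≤ log (exp x + exp y + exp z) := by
    rw [Real.le_log_iff_exp_le hpos]
    have h1 := Real.exp_pos x
    have h2 := Real.exp_pos y
    have h3 := Real.exp_pos z
    rcases le_total x (max y z) with h | h
    · rw [hm, max_eq_right h]
      rcases le_total y z with h' | h'
      · rw [max_eq_right h']; linarith
      · rw [max_eq_left h']; linarith
    · rw [hm, max_eq_left h]; linarith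
  have hup : log (exp x + exp y + exp z) ≤ m + log 3 := by
    rw [Real.log_le_iff_le_exp hpos, Real.exp_add, Real.exp_log (by norm_num : (0:ℝ) < 3)]
    have h1 := Real.exp_le_exp.2 hx
    have h2 := Real.exp_le_exp.2 hy
    have h3 := Real.exp_le_exp.2 hz
    linarith
  rw [abs_le]; constructor <;> linarith

theorem Kasymp : S_Kasymp := by
  intro l th r t hl hr hA hB
  have hr0 : ∀ᶠ n in atTop, 0 < r n := hr.eventually_gt_atTop 0
  -- the length
  have hM : Tendsto (fun n => (max ((ae (l n) (th n) - af (l n) (th n)) / 2)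
      (max (-(ae (l n) (th n) + af (l n) (th n)) / 2) ((ae (l n) (th n) + af (l n) (th n)) / 2)))
        / r n) atTop (𝓝 (1 / 2)) := by
    have h1 : Tendsto (fun n => max ((ae (l n) (th n) / r n - af (l n) (th n) / r n) / 2)
        (|ae (l n) (th n) / r n + af (l n) (th n) / r n| / 2)) atTop
        (𝓝 (max ((1 - |t| - (|t + 1| - 1)) / 2) (|1 - |t| + (|t + 1| - 1)| / 2))) :=
      ((hA.sub hB).div_const 2).max (((hA.add hB).abs).div_const 2)
    rw [h239_half_abs] at h1
    refine h1.congr' ?_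
    filter_upwards [hr0] with n hn
    have e : max (-(ae (l n) (th n) + af (l n) (th n)) / 2)
        ((ae (l n) (th n) + af (l n) (th n)) / 2) = |ae (l n) (th n) + af (l n) (th n)| / 2 := by
      rw [abs_eq_max_neg, ← max_div_div_right (by norm_num : (0:ℝ) ≤ 2), max_comm]
    rw [e, ← max_div_div_right hn.le]
    congr 1
    · ring
    · rw [← add_div, abs_div, abs_of_pos hn]; ring
  have hF : Tendsto (fun n => log (2 * cosh (l n / 2)) / r n) atTop (𝓝 (1 / 2)) := by
    refine h239_squeeze hr hM (C := log 3) (Eventually.of_forall fun n => ?_)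
    rw [h239_key (hl n) (th n)]
    exact h239_logsum _ _ _
  have hL2 : Tendsto (fun n => (l n / 2) / r n) atTop (𝓝 (1 / 2)) := by
    refine h239_squeeze hr hF (C := log 2) (Eventually.of_forall fun n => ?_)
    have h1 := h239_logcosh (l n)
    rw [abs_of_pos (hl n)] at h1
    rw [Real.log_mul two_ne_zero (Real.cosh_pos _).ne', abs_le]
    have : 0 ≤ log 2 := Real.log_nonneg (by norm_num)
    constructor <;> linarith [h1.1, h1.2]
  have hL : Tendsto (fun n => l n / r n) atTop (𝓝 1) := by
    have := hL2.mul_const 2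
    norm_num at this
    refine this.congr (fun n => ?_)
    ring
  have hl1 : ∀ᶠ n in atTop, 1 ≤ l n := by
    have h1 : Tendsto l atTop atTop := by
      have := hL.pos_mul_atTop (by norm_num : (0:ℝ) < 1) hr
      refine this.congr' ?_
      filter_upwards [hr0] with n hn
      field_simp
    exact h1.eventually_ge_atTop 1
  -- `|th|`
  have hT : Tendsto (fun n => (|th n| / 2) / r n) atTop (𝓝 (|t| / 2)) := by
    have h1 : Tendsto (fun n => (l n / 2 - ae (l n) (th n) / 2) / r n) atTop (𝓝 (|t| / 2)) := by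
      have := (hL.div_const 2).sub (hA.div_const 2)
      have e : (1 : ℝ) / 2 - (1 - |t|) / 2 = |t| / 2 := by ring
      rw [e] at this
      refine this.congr (fun n => ?_)
      ring
    refine h239_squeeze hr h1 (C := 2 + log 2) ?_
    filter_upwards [hl1] with n hn
    have h2 := h239_logcosh (th n)
    have h3 := h239_logsinh hn
    have h4 : ae (l n) (th n) = 2 * (log (sinh (l n / 2)) - log (cosh (th n / 2))) := by
      unfold ae
      rw [Real.log_div (h239_sinh_pos (hl n)).ne' (Real.cosh_pos _).ne']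
    have : 0 ≤ log 2 := Real.log_nonneg (by norm_num)
    rw [h4, abs_le]
    constructor <;> linarith [h2.1, h2.2, h3.1, h3.2]
  have hS : Tendsto (fun n => (|th n + l n| / 2) / r n) atTop (𝓝 (|t + 1| / 2)) := by
    have h1 : Tendsto (fun n => (l n / 2 + af (l n) (th n) / 2) / r n) atTop
        (𝓝 (|t + 1| / 2)) := by
      have := (hL.div_const 2).add (hB.div_const 2)
      have e : (1 : ℝ) / 2 + (|t + 1| - 1) / 2 = |t + 1| / 2 := by ring
      rw [e] at this
      refine this.congr (fun n => ?_)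
      ring
    refine h239_squeeze hr h1 (C := 2 + log 2) ?_
    filter_upwards [hl1] with n hn
    have h2 := h239_logcosh (th n + l n)
    have h3 := h239_logsinh hn
    have h4 : af (l n) (th n) = 2 * (log (cosh ((th n + l n) / 2)) - log (sinh (l n / 2))) := by
      unfold af
      rw [Real.log_div (Real.cosh_pos _).ne' (h239_sinh_pos (hl n)).ne']
    have : 0 ≤ log 2 := Real.log_nonneg (by norm_num)
    rw [h4, abs_le]
    constructor <;> linarith [h2.1, h2.2, h3.1, h3.2]
  refine ⟨hL, ?_⟩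
  have h1 := ((hS.pow 2).sub (hT.pow 2)).sub ((hL.div_const 2).pow 2)
  have h2 := h1.div hL (by norm_num)
  have h3 := h2.mul_const 2
  have e : ((|t + 1| / 2) ^ 2 - (|t| / 2) ^ 2 - (1 / 2) ^ 2) / 1 * 2 = t := by
    rw [div_pow, div_pow, sq_abs, sq_abs]; ring
  rw [e] at h3
  refine h3.congr' ?_
  filter_upwards [hr0] with n hn
  have hln := hl n
  simp only [Pi.div_apply]
  have e1 : (|th n + l n| / 2 / r n) ^ 2 = (th n + l n) ^ 2 / 4 / r n ^ 2 := by
    rw [div_pow, div_pow, sq_abs]; norm_num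
  have e2 : (|th n| / 2 / r n) ^ 2 = (th n) ^ 2 / 4 / r n ^ 2 := by
    rw [div_pow, div_pow, sq_abs]; norm_num
  rw [e1, e2]
  field_simp
  ring

end Run7.h568.DG
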